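import Pool.Graph.R_pool_sql_team_seeded_47a924f7.Results.MP_7470a2_gt.ExactlyTwoFillings

/-!
# The number of symplectic fillings of a lens space with second Betti number one

For all coprime `0 < a < n` the number of inequivalent symplectic fillings of `L(n, a)` with second
Betti number one is determined: it is `0`, `1` or `2`, and the pairs `(n, a)` for which it is
positive and for which it is two are given by explicit parameters. Moreover there are at most two
tuples of Lisca with second Betti number one, even when reversed tuples are not identified.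
-/

set_option autoImplicit false

open Pool.Agent.T6.H32.LS

namespace Pool.Agent.Results.MP_7470a2_gt.NumberOfFillings

/-- The explicit parameters: two primitive vectors `(x, y)` and `(z, w)` of `ℤ²`, with `y, w > 0`
and nonnegative determinant `d`. -/
def FillingParam (n a : ℤ) : Prop :=
  ∃ x y z w d : ℤ, IsCoprime x y ∧ IsCoprime z w ∧ 0 < y ∧ 0 < w ∧ 0 ≤ d ∧ d = x * w - y * z ∧
    n = y ^ 2 + w ^ 2 + d * y * w ∧ a = z * w + x * (y + d * w) - 1

/-- `L(n, a)` has a filling with second Betti number one, and all these are equivalent. -/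
def ExactlyOne (n a : ℤ) : Prop :=
  ∃ k, Filling n a k ∧ ∀ k', Filling n a k' → Same n a k k'

theorem dec_iff {n a x y z w : ℤ} : Dec n a (x, y) (z, w) ↔
    IsCoprime x y ∧ IsCoprime z w ∧ 0 < y ∧ 0 < w ∧ 0 ≤ x * w - y * z ∧
    n = y ^ 2 + w ^ 2 + (x * w - y * z) * y * w ∧
    a = z * w + x * (y + (x * w - y * z) * w) - 1 := by
  constructor
  · rintro ⟨h1, h2, h3, h4, h5, h6⟩
    simp only [T, br, Prod.mk.injEq] at h5 h6
    refine ⟨h1, h2, h3, h4, h5, ?_, ?_⟩
    · rw [← h6.2]; ring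
    · rw [← h6.1]; ring
  · rintro ⟨h1, h2, h3, h4, h5, h6, h7⟩
    refine ⟨h1, h2, h3, h4, h5, ?_⟩
    simp only [T, br, Prod.mk.injEq]
    constructor
    · rw [h7]; ring
    · rw [h6]; ring

theorem same_of {n a : ℤ} {k k₁ k₂ : List ℤ} (h₁ : Same n a k k₁) (h₂ : Same n a k k₂) :
    Same n a k₁ k₂ := by
  rcases h₁ with h₁ | ⟨hd, h₁⟩ <;> rcases h₂ with h₂ | ⟨hd', h₂⟩
  · exact Or.inl (h₁.symm.trans h₂)
  · exact Or.inr ⟨hd', by rw [← h₁]; exact h₂⟩
  · exact Or.inr ⟨hd, by rw [h₁, List.reverse_reverse]; exact h₂.symm⟩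
  · exact Or.inl (h₁.trans h₂.symm)

/-- Let `0 < a < n` be coprime. (1) `L(n, a)` has a filling with second Betti number one iff `(n, a)`
is given by the explicit parameters of `FillingParam`. (2) Among any three tuples of such fillings
two are equal. (3) There are exactly two inequivalent such fillings iff `(n, a)` is given by the
explicit parameters of `Param`. (4) There is exactly one such filling up to equivalence iff
`FillingParam` holds and `Param` does not. -/
theorem result (n a : ℤ) (ha : 0 < a) (han : a < n) (hc : IsCoprime n a) :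
    ((∃ k, Filling n a k) ↔ FillingParam n a) ∧
    (∀ k k' k'', Filling n a k → Filling n a k' → Filling n a k'' →
      k = k' ∨ k = k'' ∨ k' = k'') ∧
    (ExactlyTwo n a ↔ Param n a) ∧
    (ExactlyOne n a ↔ FillingParam n a ∧ ¬ Param n a) := by
  have hfil : ∀ k, Filling n a k ↔ ∃ u v, Fil n a k u v := filling_iff cfz cfc listStm ha han hc
  have h1 : (∃ k, Filling n a k) ↔ FillingParam n a := by
    constructor
    · rintro ⟨k, hk⟩
      obtain ⟨⟨x, y⟩, ⟨z, w⟩, hf⟩ := (hfil k).1 hk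
      obtain ⟨p1, p2, p3, p4, p5, p6, p7⟩ := dec_iff.1 (dec _ _ _ _ _ hf)
      exact ⟨x, y, z, w, _, p1, p2, p3, p4, p5, rfl, p6, p7⟩
    · rintro ⟨x, y, z, w, d, p1, p2, p3, p4, p5, rfl, p6, p7⟩
      obtain ⟨k, hf⟩ := exb exa n a (x, y) (z, w) ha han (dec_iff.2 ⟨p1, p2, p3, p4, p5, p6, p7⟩)
      exact ⟨k, (hfil k).2 ⟨_, _, hf⟩⟩
  have h2 : ∀ k k' k'', Filling n a k → Filling n a k' → Filling n a k'' →
      k = k' ∨ k = k'' ∨ k' = k'' := by
    intro k k' k'' hk hk' hk''
    obtain ⟨u, v, hf⟩ := (hfil k).1 hk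
    obtain ⟨u', v', hf'⟩ := (hfil k').1 hk'
    obtain ⟨u'', v'', hf''⟩ := (hfil k'').1 hk''
    have hI := inj unq
    have hS := sam unq sum
    rcases thr alg ari n a u v u' v' u'' v'' (dec _ _ _ _ _ hf) (dec _ _ _ _ _ hf')
      (dec _ _ _ _ _ hf'') (hS _ _ _ _ _ _ _ _ hf hf') (hS _ _ _ _ _ _ _ _ hf hf'') with
      h | h | h
    · exact Or.inl ((hI n a _ _ _ _ _ _ hf hf').2 h)
    · exact Or.inr (Or.inl ((hI n a _ _ _ _ _ _ hf hf'').2 h))
    · exact Or.inr (Or.inr ((hI n a _ _ _ _ _ _ hf' hf'').2 h))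
  have h3 := ExactlyTwoFillings.result n a ha han hc
  refine ⟨h1, h2, h3, ?_⟩
  rw [← h1, ← h3]
  constructor
  · rintro ⟨k, hk, hall⟩
    refine ⟨⟨k, hk⟩, ?_⟩
    rintro ⟨k₁, k₂, hk₁, hk₂, hne, -⟩
    exact hne (same_of (hall k₁ hk₁) (hall k₂ hk₂))
  · rintro ⟨⟨k, hk⟩, hno⟩
    refine ⟨k, hk, fun k' hk' => ?_⟩
    by_contra hne
    refine hno ⟨k, k', hk, hk', hne, fun k'' hk'' => ?_⟩
    rcases h2 k k' k'' hk hk' hk'' with h | h | h
    · exact absurd (Or.inl h) hne
    · exact Or.inl (Or.inl h)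
    · exact Or.inr (Or.inl h)

end Pool.Agent.Results.MP_7470a2_gt.NumberOfFillings
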